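import Pool.Agent.helper4.NF.SpecA
import Pool.Agent.helper60.ZD.PR2

/-!
# Project nf (MP_4467b5_nt), module PRX: the Poisson formula for all lengths

A copy of `Pool/Agent/helper60/ZD/PR2.lean` (main theorem).
-/

set_option autoImplicit false

open Complex MeasureTheory

namespace Pool.Agent.NF

open Pool.Agent.helper84.DM Pool.Agent.helper78.ED Pool.Agent.DH Pool.Agent.ZD

theorem PRX (h1 : POI_stmt) (h2 : CHX_stmt) (h3 : IBU_stmt) (h4 : IBZ_stmt) (h5 : PHS_stmt) :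
    PRX_stmt := by
  intro A δ hA hδ hδ1
  obtain ⟨i, hi⟩ : ∃ i : ℕ, i = ⌈(A + 3) / δ⌉₊ := ⟨_, rfl⟩
  have hi1 : (A + 3) / δ ≤ (i : ℝ) := by rw [hi]; exact Nat.le_ceil _
  have hj : A + 3 + 2 * δ ≤ δ * ((i + 2 : ℕ) : ℝ) := by
    have : A + 3 ≤ δ * i := by
      rw [div_le_iff₀ hδ] at hi1
      linarith
    push_cast
    nlinarith
  obtain ⟨C1, hC1, hI⟩ := h3 (fun y => ((Phi y : ℝ) : ℂ)) h5.2.1 (i + 2)
  obtain ⟨C2, hC2, hZ⟩ := h4 (fun y => ((Phi y : ℝ) : ℂ)) h5.2.1 (i + 2)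
  obtain ⟨Z, hZdef⟩ : ∃ Z : ℝ, Z = ∑' m : ℤ, 1 / (m : ℝ) ^ 2 := ⟨_, rfl⟩
  have hZ0 : 0 ≤ Z := by
    rw [hZdef]
    exact tsum_nonneg (fun m => by positivity)
  refine ⟨C2 + C1 * 2 ^ (i + 2) * Z + 1, 1, by positivity, ?_⟩
  intro T hT X hX1 hX2 u hu1 hu2 M hM
  have hT0 : 0 < T := by linarith
  have hXone : 1 ≤ X := hX1
  have hX0 : 0 < X := by linarith
  obtain ⟨hs, hB⟩ := h1 X u hX0
  have hBs := h2.2.2 X M u
  have hTA : 0 < T ^ (-A) := Real.rpow_pos_of_pos hT0 _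
  -- the set of the small frequencies
  have hnot : (0 : ℤ) ∉ MM M := by simp [MM]
  have hdiff : BX X u - Complex.exp (-(((u * Real.log X : ℝ) : ℂ) * I)) * Bs X M u =
      Complex.exp (-(((u * Real.log X : ℝ) : ℂ) * I)) * ((X : ℂ) * (HH u ((0 : ℤ) * X) +
        (∑' m : ℤ, HH u ((m : ℝ) * X) - ∑ m ∈ insert 0 (MM M), HH u ((m : ℝ) * X)))) := by
    rw [hB, hBs, Finset.sum_insert hnot]
    ring
  have hex : ex (-(u * Real.log X)) = Complex.exp (-(((u * Real.log X : ℝ) : ℂ) * I)) := by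
    unfold ex
    rw [Complex.ofReal_neg, neg_mul]
  rw [hex, hdiff, norm_mul, PR2_norm_exp, one_mul, norm_mul, Complex.norm_real, Real.norm_eq_abs,
    abs_of_pos hX0]
  -- zero frequency
  have hzero : X * ‖HH u ((0 : ℤ) * X)‖ ≤ C2 * T ^ (-A) := by
    have hH : HH u ((0 : ℤ) * X) =
        ∫ y : ℝ, ((Phi y : ℝ) : ℂ) * Complex.exp (-(((u * Real.log y : ℝ) : ℂ) * I)) := by
      unfold HH
      refine integral_congr_ae (Filter.Eventually.of_forall ?_)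
      intro y
      simp only [Int.cast_zero, zero_mul]
      rw [show (-(0 : ℝ)) = -(0 * y) by ring, PR2_ee_zero, mul_one]
    rw [hH]
    exact PR2_zero A δ T X (i + 2) hδ hj hT hX2 hX0 u hu1 _ C2 hC2 (hZ u)
  -- high frequencies
  have hN : (1 : ℝ) ≤ (M : ℝ) + 1 := by
    have : (0 : ℝ) ≤ M := Nat.cast_nonneg M
    linarith
  have htail : ‖∑' m : ℤ, HH u ((m : ℝ) * X) - ∑ m ∈ insert 0 (MM M), HH u ((m : ℝ) * X)‖ ≤
      (C1 * ((2 * T) ^ (i + 2) / (X ^ (i + 2) * ((M : ℝ) + 1) ^ i))) * Z := by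
    rw [hZdef]
    refine PR2_tail (fun m : ℤ => HH u ((m : ℝ) * X)) (insert 0 (MM M)) _ (by positivity) hs ?_
    intro m hm
    have hm1 : (M : ℝ) + 1 ≤ |(m : ℝ)| := by
      have hm' : ¬ (m ∈ Finset.Icc (-(M : ℤ)) M) := by
        intro hmem
        apply hm
        rw [Finset.mem_insert]
        by_cases h0 : m = 0
        · exact Or.inl h0
        · exact Or.inr (Finset.mem_erase.2 ⟨h0, hmem⟩)
      have hm2 : (M : ℤ) + 1 ≤ |m| := by
        by_contra hcon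
        push Not at hcon
        apply hm'
        rw [Finset.mem_Icc]
        have := abs_le.1 (show |m| ≤ (M : ℤ) by omega)
        exact this
      have hm3 : (((M : ℤ) + 1 : ℤ) : ℝ) ≤ ((|m| : ℤ) : ℝ) := by exact_mod_cast hm2
      rw [Int.cast_abs] at hm3
      push_cast at hm3
      exact hm3
    exact PR2_high T X ((M : ℝ) + 1) u m _ C1 i hT hXone hN hu2 hm1 hC1 (hI u ((m : ℝ) * X))
  have hK := PR2_pow A δ T X ((M : ℝ) + 1) i hj hT hXone hM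
  calc X * ‖HH u ((0 : ℤ) * X) +
        (∑' m : ℤ, HH u ((m : ℝ) * X) - ∑ m ∈ insert 0 (MM M), HH u ((m : ℝ) * X))‖
      ≤ X * (‖HH u ((0 : ℤ) * X)‖ +
        ‖∑' m : ℤ, HH u ((m : ℝ) * X) - ∑ m ∈ insert 0 (MM M), HH u ((m : ℝ) * X)‖) :=
        mul_le_mul_of_nonneg_left (norm_add_le _ _) hX0.le
    _ = X * ‖HH u ((0 : ℤ) * X)‖ + X *
        ‖∑' m : ℤ, HH u ((m : ℝ) * X) - ∑ m ∈ insert 0 (MM M), HH u ((m : ℝ) * X)‖ := by ring
    _ ≤ C2 * T ^ (-A) + X *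
        ((C1 * ((2 * T) ^ (i + 2) / (X ^ (i + 2) * ((M : ℝ) + 1) ^ i))) * Z) :=
        add_le_add hzero (mul_le_mul_of_nonneg_left htail hX0.le)
    _ = C2 * T ^ (-A) + (C1 * Z) *
        (X * ((2 * T) ^ (i + 2) / (X ^ (i + 2) * ((M : ℝ) + 1) ^ i))) := by ring
    _ ≤ C2 * T ^ (-A) + (C1 * Z) * (2 ^ (i + 2) * T ^ (-A)) := by
        gcongr
    _ ≤ (C2 + C1 * 2 ^ (i + 2) * Z + 1) * T ^ (-A) := by nlinarith

end Pool.Agent.NF
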